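import Pool.Agent.Q264.KS.Stm3

/-!
# Project KS, dimension three: two limits of derivatives at a point of non-differentiability (job K0)
-/

namespace Pool.Agent.Q214.KS

open Module Filter Topology Pool.Agent.Q264.KS

universe u

section
variable {X : Type u} [NormedAddCommGroup X] [NormedSpace ℝ X]

lemma D_self {x : X} (h : Sm x) : D x x = ‖x‖ := h.fderiv_norm_self

lemma norm_D (x : X) : ‖D x‖ ≤ 1 := by
  have h2 := norm_fderiv_le_of_lipschitz (𝕜 := ℝ) (x₀ := x) (lipschitzWith_one_norm (E := X))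
  rw [NNReal.coe_one] at h2
  exact h2

lemma abs_D_le (x y : X) : |D x y| ≤ ‖y‖ := by
  have h := (D x).le_of_opNorm_le (norm_D x) y
  rwa [one_mul, Real.norm_eq_abs] at h

lemma D_le (x y : X) : D x y ≤ ‖y‖ := (le_abs_self _).trans (abs_D_le x y)

lemma dens [FiniteDimensional ℝ X] (hD : S_DEN.{u}) (x : X) (hx : x ≠ 0) (ε : ℝ) (hε : 0 < ε) :
    ∃ w : X, ‖w - x‖ < ε ∧ Sm w := by
  have hn : 0 < ‖x‖ := norm_pos_iff.mpr hx
  obtain ⟨w, hw1, hw2, hw3⟩ := hD X (‖x‖⁻¹ • x) (by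
    rw [norm_smul, norm_inv, norm_norm, inv_mul_cancel₀ hn.ne']) (ε / ‖x‖) (div_pos hε hn)
  refine ⟨‖x‖ • w, ?_, ?_⟩
  · have h1 : ‖x‖ • w - x = ‖x‖ • (w - ‖x‖⁻¹ • x) := by
      rw [smul_sub, smul_smul, mul_inv_cancel₀ hn.ne', one_smul]
    rw [h1, norm_smul, norm_norm]
    calc ‖x‖ * ‖w - ‖x‖⁻¹ • x‖ < ‖x‖ * (ε / ‖x‖) := mul_lt_mul_of_pos_left hw2 hn
      _ = ε := by field_simp
  · exact (differentiableAt_norm_smul hn.ne').mp hw3

/-- smooth points converging to a given nonzero point -/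
lemma dens_seq [FiniteDimensional ℝ X] (hD : S_DEN.{u}) (x : X) (hx : x ≠ 0) :
    ∃ w : ℕ → X, (∀ k, Sm (w k)) ∧ Tendsto w atTop (𝓝 x) := by
  choose w hw1 hw2 using fun k : ℕ => dens hD x hx (1 / ((k : ℝ) + 1)) (by positivity)
  refine ⟨w, hw2, ?_⟩
  rw [tendsto_iff_norm_sub_tendsto_zero]
  exact squeeze_zero (fun k => norm_nonneg _) (fun k => (hw1 k).le)
    tendsto_one_div_add_atTop_nhds_zero_nat

lemma subseq [FiniteDimensional ℝ X] (w : ℕ → X) :
    ∃ (g : X →L[ℝ] ℝ) (φ : ℕ → ℕ), StrictMono φ ∧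
      Tendsto (fun k => D (w (φ k))) atTop (𝓝 g) := by
  have : ProperSpace (X →L[ℝ] ℝ) := FiniteDimensional.proper ℝ _
  obtain ⟨g, -, φ, hφ, h⟩ := (isCompact_closedBall (0 : X →L[ℝ] ℝ) 1).tendsto_subseq
    (x := fun k => D (w k)) fun k => by
      rw [Metric.mem_closedBall, dist_zero_right]; exact norm_D _
  exact ⟨g, φ, hφ, h⟩

end

theorem t_K0 : S_K0.{u} := by
  intro hD X _ _ _ z hz hns
  have hz0 : z ≠ 0 := by
    rintro rfl
    rw [norm_zero] at hz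
    exact zero_ne_one hz
  obtain ⟨w, hw1, hw2⟩ := dens_seq hD z hz0
  obtain ⟨g, φ, hφ, hg⟩ := subseq w
  have hLg : Lim z g := ⟨fun k => w (φ k), fun k => hw1 _, hw2.comp hφ.tendsto_atTop, hg⟩
  by_contra hcon
  have huniq : ∀ g', Lim z g' → g' = g := by
    intro g' hg'
    by_contra hne
    exact hcon ⟨g', g, hne, hg', hLg⟩
  have hunif : ∀ ε : ℝ, 0 < ε → ∃ δ : ℝ, 0 < δ ∧ ∀ x : X, Sm x → ‖x - z‖ < δ → ‖D x - g‖ ≤ ε := by
    intro ε hε
    by_contra hc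
    push Not at hc
    choose x hx1 hx2 hx3 using fun k : ℕ => hc (1 / ((k : ℝ) + 1)) (by positivity)
    have hxt : Tendsto x atTop (𝓝 z) := by
      rw [tendsto_iff_norm_sub_tendsto_zero]
      exact squeeze_zero (fun k => norm_nonneg _) (fun k => (hx2 k).le)
        tendsto_one_div_add_atTop_nhds_zero_nat
    obtain ⟨g', ψ, hψ, hg'⟩ := subseq x
    have h1 := huniq g' ⟨fun k => x (ψ k), fun k => hx1 _, hxt.comp hψ.tendsto_atTop, hg'⟩
    rw [h1] at hg'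
    have h2 : Tendsto (fun k => ‖D (x (ψ k)) - g‖) atTop (𝓝 0) :=
      tendsto_iff_norm_sub_tendsto_zero.mp hg'
    have h3 : ε ≤ 0 := ge_of_tendsto' h2 fun k => (hx3 _).le
    linarith
  apply hns
  refine HasFDerivAt.differentiableAt (f' := g) ?_
  rw [hasFDerivAt_iff_isLittleO_nhds_zero, Asymptotics.isLittleO_iff]
  intro ε hε
  obtain ⟨δ, hδ, hδ2⟩ := hunif ε hε
  have hδ' : 0 < min δ (1 / 2) := lt_min hδ (by norm_num)
  filter_upwards [Metric.ball_mem_nhds (0 : X) hδ'] with h hh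
  rw [mem_ball_zero_iff] at hh
  have hhδ : ‖h‖ < δ := hh.trans_le (min_le_left _ _)
  have hh2 : ‖h‖ < 1 / 2 := hh.trans_le (min_le_right _ _)
  have hy0 : z + h ≠ 0 := by
    intro h0
    have h1 : z = -h := eq_neg_of_add_eq_zero_left h0
    rw [h1, norm_neg] at hz
    linarith
  obtain ⟨y, hy1, hy2⟩ := dens_seq hD (z + h) hy0
  have e1 : ∀ᶠ k in atTop, ‖w k - z‖ < δ := by
    have := (tendsto_iff_norm_sub_tendsto_zero.mp hw2).eventually_lt_const hδ
    exact this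
  have e2 : ∀ᶠ k in atTop, ‖y k - z‖ < δ := by
    have h1 : Tendsto (fun k => ‖y k - z‖) atTop (𝓝 ‖z + h - z‖) := (hy2.sub_const z).norm
    rw [add_sub_cancel_left] at h1
    exact h1.eventually_lt_const hhδ
  have hlim1 : Tendsto (fun k => ‖‖y k‖ - ‖w k‖ - g (y k - w k)‖) atTop
      (𝓝 ‖‖z + h‖ - ‖z‖ - g (z + h - z)‖) :=
    ((hy2.norm.sub hw2.norm).sub ((g.continuous.tendsto _).comp (hy2.sub hw2))).norm
  have hlim2 : Tendsto (fun k => ε * ‖y k - w k‖) atTop (𝓝 (ε * ‖z + h - z‖)) :=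
    (hy2.sub hw2).norm.const_mul ε
  have hle : ∀ᶠ k in atTop, ‖‖y k‖ - ‖w k‖ - g (y k - w k)‖ ≤ ε * ‖y k - w k‖ := by
    filter_upwards [e1, e2] with k h1 h2
    have a1 := hδ2 _ (hw1 k) h1
    have a2 := hδ2 _ (hy1 k) h2
    have b1 : |(D (w k) - g) (y k - w k)| ≤ ε * ‖y k - w k‖ := by
      have := (D (w k) - g).le_of_opNorm_le a1 (y k - w k)
      rwa [Real.norm_eq_abs] at this
    have b2 : |(D (y k) - g) (y k - w k)| ≤ ε * ‖y k - w k‖ := by
      have := (D (y k) - g).le_of_opNorm_le a2 (y k - w k)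
      rwa [Real.norm_eq_abs] at this
    have c1 := D_le (w k) (y k)
    have c2 := D_self (hw1 k)
    have c3 := D_le (y k) (w k)
    have c4 := D_self (hy1 k)
    rw [sub_apply, abs_le, map_sub (D (w k))] at b1
    rw [sub_apply, abs_le, map_sub (D (y k))] at b2
    rw [Real.norm_eq_abs, abs_le]
    constructor <;> linarith [b1.1, b1.2, b2.1, b2.2]
  have hfin := le_of_tendsto_of_tendsto hlim1 hlim2 hle
  rwa [add_sub_cancel_left] at hfin

end Pool.Agent.Q214.KS
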