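import Pool.Agent.Q214.KS.K0

/-!
# Project KS, dimension three: no open set of points with additive norm (job K4B)
-/

namespace Pool.Agent.Q214.KS

open Module Filter Topology Pool.Agent.Q264.KS

universe u

section
variable {X : Type u} [NormedAddCommGroup X] [NormedSpace ℝ X]

lemma exists_ker [FiniteDimensional ℝ X] (h3 : finrank ℝ X = 3) (f : X →L[ℝ] ℝ) :
    ∃ w : X, w ≠ 0 ∧ f w = 0 := by
  by_contra hc
  push Not at hc
  have hinj : Function.Injective (f : X →ₗ[ℝ] ℝ) := by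
    rw [← LinearMap.ker_eq_bot, LinearMap.ker_eq_bot']
    intro m hm
    by_contra hm0
    exact hc m hm0 hm
  have h1 := LinearMap.finrank_le_finrank_of_injective hinj
  rw [h3, finrank_self] at h1
  omega

/-- BJ orthogonality passes to the limit -/
lemma bj_lim {w : X} {x : ℕ → X} {y : X} (hx : Tendsto x atTop (𝓝 y))
    (h : ∀ᶠ k in atTop, BJ (x k) w) : BJ y w := by
  intro l
  refine le_of_tendsto_of_tendsto hx.norm (hx.add_const (l • w)).norm ?_
  filter_upwards [h] with k hk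
  exact hk l

end

theorem t_K4B : S_K4B.{u} := by
  intro hK4A hS2 hBJD hUNI hHB hDEN _ X _ _ _ h3 hP z O hz hO hne hOz hadd
  -- a small ball
  obtain ⟨c, hc⟩ := hne
  obtain ⟨r0, hr0, hb0⟩ := Metric.isOpen_iff.mp hO c hc
  set r : ℝ := min r0 (1 / 32) with hr
  have hrpos : 0 < r := lt_min hr0 (by norm_num)
  have hr32 : r ≤ 1 / 32 := min_le_right _ _
  have hBO : Metric.ball c r ⊆ O := (Metric.ball_subset_ball (min_le_left _ _)).trans hb0
  have hnorm : ∀ x ∈ O, 15 / 16 ≤ ‖x‖ ∧ ‖x‖ ≤ 17 / 16 := by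
    intro x hx
    have h1 := hOz hx
    rw [Metric.mem_ball, dist_eq_norm] at h1
    have h2 := norm_sub_norm_le z x
    have h4 := norm_sub_norm_le x z
    rw [norm_sub_rev] at h2
    rw [hz] at h2 h4
    constructor <;> linarith
  have hne0 : ∀ x ∈ O, x ≠ 0 := by
    rintro x hx rfl
    have := (hnorm _ hx).1
    rw [norm_zero] at this
    linarith
  have hdist : ∀ x ∈ Metric.ball c r, ∀ y ∈ Metric.ball c r, ‖x - y‖ ≤ 1 / 16 := by
    intro x hx y hy
    rw [Metric.mem_ball, dist_eq_norm] at hx hy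
    have h1 := norm_sub_le_norm_sub_add_norm_sub x c y
    rw [norm_sub_rev c y] at h1
    linarith
  -- the first smooth point
  obtain ⟨x₁, hx₁c, hx₁s⟩ := dens hDEN c (hne0 c hc) r hrpos
  have hx₁B : x₁ ∈ Metric.ball c r := by rw [Metric.mem_ball, dist_eq_norm]; exact hx₁c
  obtain ⟨w, hw0, hw⟩ := exists_ker h3 (D x₁)
  -- the second smooth point
  obtain ⟨x₂, hx₂B, hx₂s, hx₂D⟩ : ∃ x₂ ∈ Metric.ball c r, Sm x₂ ∧ D x₂ ≠ D x₁ := by
    by_contra hcon
    push Not at hcon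
    obtain ⟨x, hx, hxw⟩ := no_flat (by omega) hP w hw0 (Metric.ball c r) Metric.isOpen_ball
      ⟨c, Metric.mem_ball_self hrpos⟩
    apply hxw
    obtain ⟨y, hy1, hy2⟩ := dens_seq hDEN x (hne0 x (hBO hx))
    refine bj_lim hy2 ?_
    filter_upwards [hy2.eventually (Metric.isOpen_ball.mem_nhds hx)] with k hk
    refine (hBJD X (y k) (hy1 k) w).mpr ?_
    have h1 := hcon (y k) hk (hy1 k)
    show D (y k) w = 0
    rw [h1, hw]
  -- uniform gap
  obtain ⟨c₀, ρ, hc₀, hρ, hρB, hgap⟩ : ∃ c₀ ρ : ℝ, 0 < c₀ ∧ 0 < ρ ∧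
      Metric.ball x₂ ρ ⊆ Metric.ball c r ∧
      ∀ x ∈ Metric.ball x₂ ρ, Sm x → D x x₁ ≤ ‖x₁‖ - c₀ := by
    obtain ⟨ρ0, hρ0, hρ0B⟩ := Metric.isOpen_iff.mp Metric.isOpen_ball x₂ hx₂B
    by_contra hcon
    push Not at hcon
    have hk : ∀ k : ℕ, ∃ x : X, ‖x - x₂‖ < 1 / ((k : ℝ) + 1) ∧ Sm x ∧
        ‖x₁‖ - 1 / ((k : ℝ) + 1) < D x x₁ := by
      intro k
      obtain ⟨x, hx1, hx2, hx3⟩ := hcon (1 / ((k : ℝ) + 1)) (min ρ0 (1 / ((k : ℝ) + 1)))
        (by positivity) (by positivity) ((Metric.ball_subset_ball (min_le_left _ _)).trans hρ0B)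
      rw [Metric.mem_ball, dist_eq_norm] at hx1
      exact ⟨x, hx1.trans_le (min_le_right _ _), hx2, hx3⟩
    choose x hx1 hx2 hx3 using hk
    have hxt : Tendsto x atTop (𝓝 x₂) := by
      rw [tendsto_iff_norm_sub_tendsto_zero]
      exact squeeze_zero (fun k => norm_nonneg _) (fun k => (hx1 k).le)
        tendsto_one_div_add_atTop_nhds_zero_nat
    obtain ⟨g, ψ, hψ, hg⟩ := subseq x
    have hgy : ∀ y, Tendsto (fun k => D (x (ψ k)) y) atTop (𝓝 (g y)) := fun y =>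
      ((ContinuousLinearMap.apply ℝ ℝ y).continuous.tendsto g).comp hg
    have hg1 : ∀ y, g y ≤ ‖y‖ := fun y => le_of_tendsto' (hgy y) fun k => D_le _ _
    have hxψ : Tendsto (fun k => x (ψ k)) atTop (𝓝 x₂) := hxt.comp hψ.tendsto_atTop
    have hg2 : g x₂ = ‖x₂‖ := by
      have h1 : Tendsto (fun k => D (x (ψ k)) (x (ψ k))) atTop (𝓝 (g x₂)) :=
        (isBoundedBilinearMap_apply (𝕜 := ℝ) (E := X) (F := ℝ)).continuous.tendsto (g, x₂)
          |>.comp (hg.prodMk_nhds hxψ)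
      have h2 : Tendsto (fun k => D (x (ψ k)) (x (ψ k))) atTop (𝓝 ‖x₂‖) := by
        have h4 : (fun k => D (x (ψ k)) (x (ψ k))) = fun k => ‖x (ψ k)‖ := by
          funext k; exact D_self (hx2 _)
        rw [h4]
        exact hxψ.norm
      exact tendsto_nhds_unique h1 h2
    have hg3 : g x₁ = ‖x₁‖ := by
      refine le_antisymm (hg1 _) ?_
      have h1 : Tendsto (fun k : ℕ => ‖x₁‖ - 1 / ((ψ k : ℝ) + 1)) atTop (𝓝 (‖x₁‖ - 0)) :=
        (tendsto_one_div_add_atTop_nhds_zero_nat.comp hψ.tendsto_atTop).const_sub ‖x₁‖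
      rw [sub_zero] at h1
      exact le_of_tendsto_of_tendsto' h1 (hgy x₁) fun k => (hx3 _).le
    exact hx₂D ((hUNI X x₂ hx₂s g hg1 hg2).symm.trans (hUNI X x₁ hx₁s g hg1 hg3))
  -- the combination
  set t : ℝ := c₀ / (c₀ + 8) with ht
  have hden : 0 < c₀ + 8 := by linarith
  have ht0 : 0 < t := div_pos hc₀ hden
  have ht1 : t < 1 := by rw [ht, div_lt_one hden]; linarith
  have htc : 4 * t < (1 - t) * c₀ := by
    have h1 : t * (c₀ + 8) = c₀ := div_mul_cancel₀ _ hden.ne'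
    nlinarith
  have hsm : ∀ x ∈ Metric.ball x₂ ρ, Sm x → ‖(1 - t) • x₁ + t • x‖ = D x₁ ((1 - t) • x₁ + t • x) := by
    intro x hx hxs
    have hxB := hρB hx
    have hxO := hBO hxB
    have hx₁O := hBO hx₁B
    have hg := hgap x hx hxs
    have hDne : D x₁ ≠ D x := by
      intro h
      have h1 := D_self hx₁s
      rw [h] at h1
      linarith
    have hhO : (1 - t) • x₁ + t • x ∈ O :=
      hBO (convex_ball c r hx₁B hxB (by linarith) ht0.le (by ring))
    have hd := hdist x₁ hx₁B x hxB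
    have h1 := hK4A hS2 hBJD hUNI hHB X h3 hP z O hz hO hadd x₁ x hx₁O hxO hx₁s hxs
      (by linarith [(hnorm x₁ hx₁O).1]) (by linarith [(hnorm x hxO).1]) hDne (1 - t) t
      (by linarith) ht0.le hhO
    rw [h1, max_eq_left]
    simp only [map_add, map_smul, smul_eq_mul]
    have e1 := D_self hx₁s
    have e2 := D_self hxs
    have e3 := abs_le.mp (abs_D_le x₁ x)
    have e4 := (hnorm x hxO).2
    rw [e1, e2]
    nlinarith [e3.1]
  have hall : ∀ x ∈ Metric.ball x₂ ρ, ‖(1 - t) • x₁ + t • x‖ = D x₁ ((1 - t) • x₁ + t • x) := by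
    intro x hx
    obtain ⟨y, hy1, hy2⟩ := dens_seq hDEN x (hne0 x (hBO (hρB hx)))
    have h1 : Tendsto (fun k => (1 - t) • x₁ + t • y k) atTop (𝓝 ((1 - t) • x₁ + t • x)) :=
      (hy2.const_smul t).const_add _
    have h2 : Tendsto (fun k => ‖(1 - t) • x₁ + t • y k‖) atTop
        (𝓝 (D x₁ ((1 - t) • x₁ + t • x))) := by
      refine (((D x₁).continuous.tendsto _).comp h1).congr' ?_
      filter_upwards [hy2.eventually (Metric.isOpen_ball.mem_nhds hx)] with k hk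
      exact (hsm (y k) hk (hy1 k)).symm
    exact tendsto_nhds_unique h1.norm h2
  -- the open set
  have hcont : Continuous fun h : X => t⁻¹ • (h - (1 - t) • x₁) := by fun_prop
  obtain ⟨h, hh, hhw⟩ := no_flat (by omega) hP w hw0
    ((fun h : X => t⁻¹ • (h - (1 - t) • x₁)) ⁻¹' Metric.ball x₂ ρ)
    (Metric.isOpen_ball.preimage hcont) ⟨(1 - t) • x₁ + t • x₂, by
      show t⁻¹ • ((1 - t) • x₁ + t • x₂ - (1 - t) • x₁) ∈ Metric.ball x₂ ρ
      rw [add_sub_cancel_left, smul_smul, inv_mul_cancel₀ ht0.ne', one_smul]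
      exact Metric.mem_ball_self hρ⟩
  apply hhw
  intro l
  have h1 := hall _ hh
  have h2 : (1 - t) • x₁ + t • (t⁻¹ • (h - (1 - t) • x₁)) = h := by
    rw [smul_smul, mul_inv_cancel₀ ht0.ne', one_smul, add_sub_cancel]
  simp only [] at h1
  rw [h2] at h1
  calc ‖h‖ = D x₁ (h + l • w) := by rw [h1, map_add, map_smul, hw, smul_zero, add_zero]
    _ ≤ ‖h + l • w‖ := D_le _ _

end Pool.Agent.Q214.KS
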