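import Pool.Agent.Q264.KS.Stm

/-!
# Project KS: norming functionals and Birkhoff-James orthogonality at differentiability points
(jobs KS-UNI, KS-BJD)
-/

namespace Pool.Agent.Q214.KS

open Module Pool.Agent.Q264.KS

universe u

theorem t_UNI : S_UNI.{u} := by
  intro X _ _ x hd g hg hgx
  have hmin : IsLocalMin (fun z : X => ‖z‖ - g z) x := by
    refine Filter.Eventually.of_forall fun z => ?_
    show ‖x‖ - g x ≤ ‖z‖ - g z
    rw [hgx, sub_self]
    exact sub_nonneg.mpr (hg z)
  have h0 := hmin.fderiv_eq_zero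
  have h1 : HasFDerivAt (fun z : X => ‖z‖ - g z) (fderiv ℝ (fun z : X => ‖z‖) x - g) x :=
    hd.hasFDerivAt.sub g.hasFDerivAt
  rw [h1.fderiv] at h0
  exact (sub_eq_zero.mp h0).symm

theorem t_BJD : S_BJD.{u} := by
  intro X _ _ x hd y
  constructor
  · intro h
    have hline : HasDerivAt (fun l : ℝ => x + l • y) y 0 := by
      have h2 := ((hasDerivAt_id (0 : ℝ)).smul_const y).const_add x
      simpa using h2
    have hd' : HasFDerivAt (fun z : X => ‖z‖) (fderiv ℝ (fun z : X => ‖z‖) x) (x + (0 : ℝ) • y) := by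
      rw [zero_smul, add_zero]; exact hd.hasFDerivAt
    have hc := hd'.comp_hasDerivAt (0 : ℝ) hline
    have hmin : IsLocalMin ((fun z : X => ‖z‖) ∘ fun l : ℝ => x + l • y) 0 := by
      refine Filter.Eventually.of_forall fun l => ?_
      show ‖x + (0 : ℝ) • y‖ ≤ ‖x + l • y‖
      rw [zero_smul, add_zero]
      exact h l
    exact hmin.hasDerivAt_eq_zero hc
  · intro h l
    have h1 : ‖fderiv ℝ (fun z : X => ‖z‖) x‖ ≤ 1 := by
      have h2 := norm_fderiv_le_of_lipschitz (𝕜 := ℝ) (x₀ := x) (lipschitzWith_one_norm (E := X))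
      simpa using h2
    calc ‖x‖ = fderiv ℝ (fun z : X => ‖z‖) x (x + l • y) := by
          rw [map_add, map_smul, h, smul_zero, add_zero, hd.fderiv_norm_self]
      _ ≤ ‖fderiv ℝ (fun z : X => ‖z‖) x (x + l • y)‖ := le_abs_self _
      _ ≤ 1 * ‖x + l • y‖ := ContinuousLinearMap.le_of_opNorm_le _ h1 _
      _ = ‖x + l • y‖ := one_mul _

end Pool.Agent.Q214.KS
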